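import Pool.Agent.H61.MG.CC1

/-!
# Vertices of degree two in a minimal set with two leaving edges (MG project)
-/

set_option autoImplicit false
set_option linter.unusedSectionVars false

open Classical

namespace Pool.Agent.H61.MG

open Pool.Agent.H52.MG

section
variable {K : Type} [Fintype K]

/-- vertices of degree two in `Z` have no leaving edge -/
lemma deg_two_inner {m : K → K → ℕ} (hm : MSym m) (h : MTt m) {Z : Finset K} (hZ : MinZ m Z)
    (hadj : ∀ x y, mdeg m x = 2 → mdeg m y = 2 → m x y = 0) {x : K} (hx : x ∈ Z)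
    (hd : mdeg m x = 2) : E m {x} Zᶜ = 0 := by
  have hxZ : ({x} : Finset K) ⊆ Z := Finset.singleton_subset_iff.mpr hx
  have e1 : mcut m {x} = cutI m Z {x} + E m {x} Zᶜ := mcut_sub hxZ
  rw [mcut_singleton hm, hd] at e1
  have e2 : mcut m (Z \ {x}) = cutI m Z (Z \ {x}) + E m (Z \ {x}) Zᶜ :=
    mcut_sub Finset.sdiff_subset
  rw [cutI_comm hm hxZ] at e2
  have e3 : mcut m Z = E m {x} Zᶜ + E m (Z \ {x}) Zᶜ := by
    rw [mcut_eq, ← E_union_left m _ Finset.disjoint_sdiff, Finset.union_sdiff_of_subset hxZ]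
  rw [hZ.1] at e3
  have hc : (Z \ {x}).card = Z.card - 1 := by
    rw [Finset.card_sdiff_of_subset hxZ, Finset.card_singleton]
  have hne : Z \ {x} ≠ Z := by
    intro h0
    have : x ∈ Z \ {x} := by rw [h0]; exact hx
    rw [Finset.mem_sdiff, Finset.mem_singleton] at this
    exact this.2 rfl
  by_cases h3 : 3 ≤ Z.card
  · have := three_le_of_minZ hm h hZ (Finset.sdiff_subset : Z \ {x} ⊆ Z) hne (by omega)
    omega
  · have h2 : Z.card = 2 := by have := hZ.2.1; omega
    have h1 : (Z \ {x}).card = 1 := by omega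
    obtain ⟨y, hy⟩ := Finset.card_eq_one.mp h1
    have hyZ : y ∈ Z \ {x} := by rw [hy]; exact Finset.mem_singleton_self y
    have e4 : cutI m Z {x} = m x y := by
      rw [cutI_eq, hy]
      simp [E]
    rw [hy, mcut_singleton hm, e4] at e2
    rw [e4] at e1
    rw [hy] at e3
    have h5 := two_le_mcut hm h (Finset.singleton_nonempty y) (ssubset_ne_univ (A := {y}) (Z := Z)
      (by rw [← hy]; exact Finset.sdiff_subset) (by rw [← hy]; exact hne))
    rw [mcut_singleton hm] at h5
    by_cases h6 : m x y = 1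
    · have := hadj x y hd (by omega)
      omega
    · omega

theorem cc0 (hcnt : T_CNT) : T_CC0 := by
  intro K _ m hm h Z hZ hadj x hx hd Q hal
  obtain ⟨f, g, f', g', hl⟩ := lnk K m Z hZ.1
  obtain ⟨M1, M2⟩ := master hm h hZ.1 hl Q
  rw [al_eq] at M1 M2
  -- another vertex of Z
  obtain ⟨y, hy, hyx⟩ := Finset.exists_mem_ne (by have := hZ.2.1; omega : 1 < Z.card) x
  have hxy : Q x ≠ Q y := fun k => hyx (hal y k.symm)
  have ht := two_le_image hx hy hxy
  -- vertices of degree two are different from f and g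
  have hfd : mdeg m f ≠ 2 := by
    intro k
    have h1 := deg_two_inner hm h hZ hadj hl.1 k
    rw [E_link' hl (Finset.singleton_subset_iff.mpr hl.1)] at h1
    simp at h1
  have hgd : mdeg m g ≠ 2 := by
    intro k
    have h1 := deg_two_inner hm h hZ hadj hl.2.1 k
    rw [E_link' hl (Finset.singleton_subset_iff.mpr hl.2.1)] at h1
    simp at h1
  have hxZ : ({x} : Finset K) ⊆ Z := Finset.singleton_subset_iff.mpr hx
  by_cases ht3 : (Z.image Q).card = 2
  · -- two colours
    have e1 : mcut m {x} = cutI m Z {x} + E m {x} Zᶜ := mcut_sub hxZ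
    rw [mcut_singleton hm, hd, deg_two_inner hm h hZ hadj hx hd, add_zero, cutI_eq] at e1
    have e2 : E (wt m Q) {x} (Z \ {x}) = E m {x} (Z \ {x}) := by
      unfold E
      refine Finset.sum_congr rfl fun a ha => Finset.sum_congr rfl fun b hb => ?_
      rw [Finset.mem_singleton] at ha
      rw [Finset.mem_sdiff, Finset.mem_singleton] at hb
      subst ha
      unfold wt
      rw [if_pos (fun k => hb.2 (hal b k.symm))]
    have e3 : E (wt m Q) Z Z = E (wt m Q) {x} {x} + E (wt m Q) (Z \ {x}) (Z \ {x}) +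
        2 * E (wt m Q) {x} (Z \ {x}) := by
      have hu : {x} ∪ Z \ {x} = Z := Finset.union_sdiff_of_subset hxZ
      have hdj : Disjoint ({x} : Finset K) (Z \ {x}) := Finset.disjoint_sdiff
      conv_lhs => rw [← hu]
      rw [E_union_left _ _ hdj, E_union_right _ _ hdj, E_union_right _ _ hdj,
        E_comm (wt_symm hm Q) (Z \ {x}) {x}]
      ring
    have h4 : 4 ≤ E (wt m Q) Z Z := by omega
    have h4' : (4 : ℤ) ≤ (E (wt m Q) Z Z : ℤ) := by exact_mod_cast h4
    rw [ht3] at M1
    push_cast at M1
    linarith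
  · have ht4 : 3 ≤ (Z.image Q).card := by omega
    set Γ := mst m f g with hΓ
    have hΓs : MSym Γ := mst_symm hm f g
    -- the cuts of the parts
    have cut : ∀ k ∈ Z.image Q, 3 ≤ cutI Γ Z (fib Z Q k) ∨
        ((∃ z, fib Z Q k = {z} ∧ mdeg m z = 2) ∧ cutI Γ Z (fib Z Q k) = 2) := by
      intro k hk
      set P := fib Z Q k with hP
      have hPn : P.Nonempty := fib_nonempty hk
      have hPZ : P ⊆ Z := fib_sub _ _ _
      have hPne : P ≠ Z := fib_ne ht k
      by_cases hfg : f ∈ P ∧ g ∈ P
      · left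
        rw [← cutI_comm hΓs hPZ, cutI_mst hl Finset.sdiff_subset]
        · apply three_le_of_minZ hm h hZ Finset.sdiff_subset
          · intro h0
            have : f ∈ Z \ P := by rw [h0]; exact hl.1
            exact (Finset.mem_sdiff.mp this).2 hfg.1
          · have h5 : (Z.image Q).erase k ⊆ (Z \ P).image Q := by
              intro l hlk
              rw [Finset.mem_erase] at hlk
              obtain ⟨z, hz, hzl⟩ := Finset.mem_image.mp hlk.2
              refine Finset.mem_image.mpr ⟨z, Finset.mem_sdiff.mpr ⟨hz, fun hzP => ?_⟩, hzl⟩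
              rw [hP, mem_fib] at hzP
              exact hlk.1 (hzl.symm.trans hzP.2)
            have h6 := Finset.card_le_card h5
            rw [Finset.card_erase_of_mem hk] at h6
            have h7 := Finset.card_image_le (s := Z \ P) (f := Q)
            omega
        · rintro ⟨h1, _⟩
          exact (Finset.mem_sdiff.mp h1).2 hfg.1
      · rw [cutI_mst hl hPZ hfg]
        by_cases hc : 2 ≤ P.card
        · exact Or.inl (three_le_of_minZ hm h hZ hPZ hPne hc)
        · have h1 : P.card = 1 := by
            have := Finset.card_pos.mpr hPn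
            omega
          obtain ⟨z, hz⟩ := Finset.card_eq_one.mp h1
          have h5 := two_le_mcut hm h hPn (ssubset_ne_univ hPZ hPne)
          rw [hz, mcut_singleton hm] at h5 ⊢
          by_cases h6 : mdeg m z = 2
          · exact Or.inr ⟨⟨z, rfl, h6⟩, h6⟩
          · left; omega
    -- the quotient multigraph
    let κ := {k // k ∈ Z.image Q}
    let μ : κ → κ → ℕ := fun k l => if k = l then 0 else E Γ (fib Z Q k.1) (fib Z Q l.1)
    have hμ : MSym μ := by
      refine ⟨fun k l => ?_, fun k => by simp [μ]⟩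
      simp only [μ]
      rw [E_comm hΓs]
      exact if_congr eq_comm rfl rfl
    have hμdeg : ∀ k : κ, mdeg μ k = cutI Γ Z (fib Z Q k.1) := by
      intro k
      have e1 : ∀ z, ∑ w ∈ Z \ fib Z Q k.1, Γ z w =
          ∑ l ∈ Z.image Q, if l = k.1 then 0 else ∑ w ∈ fib Z Q l, Γ z w := by
        intro z
        rw [← Finset.sum_fiberwise_of_maps_to (s := Z \ fib Z Q k.1) (t := Z.image Q) (g := Q)
          (fun w hw => Finset.mem_image_of_mem Q (Finset.mem_sdiff.mp hw).1)]
        refine Finset.sum_congr rfl fun l _ => ?_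
        by_cases hlk : l = k.1
        · rw [if_pos hlk]
          apply Finset.sum_eq_zero
          intro w hw
          rw [Finset.mem_filter, Finset.mem_sdiff, mem_fib] at hw
          exact absurd ⟨hw.1.1, hw.2.trans hlk⟩ hw.1.2
        · rw [if_neg hlk]
          refine Finset.sum_congr ?_ fun _ _ => rfl
          ext w
          rw [Finset.mem_filter, Finset.mem_sdiff, mem_fib, mem_fib]
          constructor
          · rintro ⟨⟨h1, h2⟩, h3⟩
            exact ⟨h1, h3⟩
          · rintro ⟨h1, h2⟩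
            exact ⟨⟨h1, fun h3 => hlk (h2.symm.trans h3.2)⟩, h2⟩
      unfold mdeg cutI
      rw [Finset.sum_congr rfl (fun z _ => e1 z), Finset.sum_comm,
        ← Finset.sum_coe_sort (Z.image Q)]
      refine Finset.sum_congr rfl fun l _ => ?_
      simp only [μ]
      by_cases hlk : l = k
      · subst hlk
        simp
      · have h1 : ¬ (l : K) = k.1 := fun h0 => hlk (Subtype.ext h0)
        rw [if_neg (Ne.symm hlk)]
        unfold E
        exact Finset.sum_congr rfl fun z _ => by rw [if_neg h1]
    -- parts of degree two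
    have hdeg2 : ∀ k : κ, mdeg μ k = 2 → ∃ z, fib Z Q k.1 = {z} ∧ mdeg m z = 2 := by
      intro k hk
      rw [hμdeg] at hk
      rcases cut k.1 k.2 with h1 | h1
      · omega
      · exact h1.1
    have hcn := hcnt κ μ hμ
      (fun k => by rw [hμdeg]; rcases cut k.1 k.2 with h1 | h1 <;> omega)
      (fun k l hk hl2 => by
        obtain ⟨z, hz, hzd⟩ := hdeg2 k hk
        obtain ⟨w, hw, hwd⟩ := hdeg2 l hl2
        simp only [μ]
        split_ifs with hkl
        · rfl
        · rw [hz, hw]
          simp only [E, Finset.sum_singleton, hΓ, mst]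
          rw [hadj z w hzd hwd, if_neg]
          rintro ⟨_, ⟨h1, _⟩ | ⟨h1, _⟩⟩
          · exact hfd (by rw [← h1]; exact hzd)
          · exact hgd (by rw [← h1]; exact hzd))
    have hsum : ∑ k : κ, mdeg μ k = E (wt Γ Q) Z Z := by
      rw [E_wt_fib, ← Finset.sum_coe_sort (Z.image Q)]
      exact Finset.sum_congr rfl fun k _ => hμdeg k
    have hcard : Fintype.card κ = (Z.image Q).card := Fintype.card_coe _
    rw [hsum, hcard] at hcn
    have hEm := E_wt_mst m Q hl.1 hl.2.1
    rw [← hΓ] at hEm
    by_cases hc : Q f = Q g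
    · rw [if_neg (by simpa using hc), mul_zero, add_zero] at hEm
      rw [hEm] at hcn
      have h5 : 12 * (Z.image Q).card ≤ 5 * E (wt m Q) Z Z := le_trans (Nat.le_add_right _ _) hcn
      have h5' : (12 * (Z.image Q).card : ℤ) ≤ 5 * (E (wt m Q) Z Z : ℤ) := by exact_mod_cast h5
      linarith
    · rw [if_pos hc] at hEm
      have M3 := M2 hc
      -- the link counts twice
      set kf : κ := ⟨Q f, Finset.mem_image_of_mem Q hl.1⟩ with hkf
      set kg : κ := ⟨Q g, Finset.mem_image_of_mem Q hl.2.1⟩ with hkg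
      have hkne : kf ≠ kg := fun h0 => hc (congrArg Subtype.val h0)
      have hfg : f ≠ g := fun h0 => hc (by rw [h0])
      have hdf : mdeg μ kf ≠ 2 := by
        intro h0
        obtain ⟨z, hz, hzd⟩ := hdeg2 kf h0
        have : f ∈ fib Z Q kf.1 := mem_fib.mpr ⟨hl.1, rfl⟩
        rw [hz, Finset.mem_singleton] at this
        exact hfd (by rw [this]; exact hzd)
      have hdg : mdeg μ kg ≠ 2 := by
        intro h0
        obtain ⟨z, hz, hzd⟩ := hdeg2 kg h0
        have : g ∈ fib Z Q kg.1 := mem_fib.mpr ⟨hl.2.1, rfl⟩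
        rw [hz, Finset.mem_singleton] at this
        exact hgd (by rw [this]; exact hzd)
      have hμfg : 1 ≤ μ kf kg := by
        simp only [μ]
        rw [if_neg hkne]
        refine le_trans ?_ (le_E (m := Γ) (mem_fib.mpr ⟨hl.1, rfl⟩ : f ∈ fib Z Q kf.1)
          (mem_fib.mpr ⟨hl.2.1, rfl⟩ : g ∈ fib Z Q kg.1))
        simp [hΓ, mst, hfg]
      have hμgf : 1 ≤ μ kg kf := by rw [hμ.1]; exact hμfg
      have hY : 2 ≤ ∑ k, ∑ l, if mdeg μ k ≠ 2 ∧ mdeg μ l ≠ 2 then μ k l else 0 := by
        have h1 : ∑ k ∈ ({kf, kg} : Finset κ),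
            (∑ l, if mdeg μ k ≠ 2 ∧ mdeg μ l ≠ 2 then μ k l else 0) ≤
            ∑ k, ∑ l, if mdeg μ k ≠ 2 ∧ mdeg μ l ≠ 2 then μ k l else 0 :=
          Finset.sum_le_sum_of_subset (Finset.subset_univ _)
        rw [Finset.sum_pair hkne] at h1
        have h2 : μ kf kg ≤ ∑ l, if mdeg μ kf ≠ 2 ∧ mdeg μ l ≠ 2 then μ kf l else 0 := by
          have := Finset.single_le_sum (f := fun l => if mdeg μ kf ≠ 2 ∧ mdeg μ l ≠ 2
            then μ kf l else 0) (fun _ _ => Nat.zero_le _) (Finset.mem_univ kg)
          simp only [hdf, hdg, ne_eq, not_false_eq_true, and_self, if_true, true_and] at this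
          simpa [hdf] using this
        have h3 : μ kg kf ≤ ∑ l, if mdeg μ kg ≠ 2 ∧ mdeg μ l ≠ 2 then μ kg l else 0 := by
          have := Finset.single_le_sum (f := fun l => if mdeg μ kg ≠ 2 ∧ mdeg μ l ≠ 2
            then μ kg l else 0) (fun _ _ => Nat.zero_le _) (Finset.mem_univ kf)
          simp only [hdf, hdg, ne_eq, not_false_eq_true, and_self, if_true, true_and] at this
          simpa [hdg] using this
        omega
      have h5 : 12 * (Z.image Q).card + 2 ≤ 5 * (E (wt m Q) Z Z + 2) := by
        rw [← mul_one 2, ← hEm]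
        exact le_trans (Nat.add_le_add_left (by simpa using hY) _) hcn
      have h5' : (12 * (Z.image Q).card + 2 : ℤ) ≤ 5 * ((E (wt m Q) Z Z : ℤ) + 2) := by
        exact_mod_cast h5
      linarith

end

end Pool.Agent.H61.MG
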