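import Pool.Agent.H61.MG.Tools

/-!
# The bound nine and the 3-edge-connected case (MG project)
-/

set_option autoImplicit false
set_option linter.unusedSectionVars false

open Classical

namespace Pool.Agent.H61.MG

open Pool.Agent.H52.MG

section
variable {K : Type} [Fintype K]

/-- crossing edges inside `Z` counted by colours -/
lemma E_wt_fiber {L : Type} (μ : K → K → ℕ) (Z : Finset K) (Q : K → L) :
    E (wt μ Q) Z Z = ∑ k ∈ Z.image Q, cutI μ Z (Z.filter (fun x => Q x = k)) := by
  unfold E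
  rw [← Finset.sum_fiberwise_of_maps_to (s := Z) (t := Z.image Q) (g := Q)
    (fun x hx => Finset.mem_image_of_mem Q hx)]
  refine Finset.sum_congr rfl fun k hk => ?_
  unfold cutI
  refine Finset.sum_congr rfl fun x hx => ?_
  rw [Finset.mem_filter] at hx
  rw [← Finset.sum_filter_add_sum_filter_not Z (fun y => Q y = k)]
  have e1 : ∑ y ∈ Z.filter (fun y => Q y = k), wt μ Q x y = 0 := by
    refine Finset.sum_eq_zero fun y hy => ?_
    rw [Finset.mem_filter] at hy
    simp [wt, hx.2, hy.2]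
  rw [e1, zero_add]
  refine Finset.sum_congr ?_ ?_
  · ext y
    simp only [Finset.mem_filter, Finset.mem_sdiff, not_and]
    tauto
  · intro y hy
    rw [Finset.mem_sdiff, Finset.mem_filter] at hy
    have : Q x ≠ Q y := by
      intro h
      exact hy.2 ⟨hy.1, by rw [← h, hx.2]⟩
    simp [wt, this]

lemma cutI_univ (μ : K → K → ℕ) (A : Finset K) : cutI μ Finset.univ A = mcut μ A := by
  unfold cutI mcut
  rw [Finset.compl_eq_univ_sdiff]

theorem cf : T_CF := by
  intro K _ m hm h Q hQ
  have h1 : me2 m Q = ∑ k ∈ Finset.univ.image Q, mcut m (Finset.univ.filter (fun x => Q x = k)) := by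
    have : me2 m Q = E (wt m Q) Finset.univ Finset.univ := rfl
    rw [this, E_wt_fiber]
    exact Finset.sum_congr rfl fun k _ => cutI_univ _ _
  have h2 : ∀ k ∈ Finset.univ.image Q, 3 ≤ mcut m (Finset.univ.filter (fun x => Q x = k)) := by
    intro k hk
    apply h
    · obtain ⟨x, _, hx⟩ := Finset.mem_image.mp hk
      exact ⟨x, Finset.mem_filter.mpr ⟨Finset.mem_univ _, hx⟩⟩
    · intro h0
      have : Finset.univ.image Q ⊆ {k} := by
        intro l hl
        obtain ⟨x, _, hx⟩ := Finset.mem_image.mp hl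
        have : x ∈ Finset.univ.filter (fun x => Q x = k) := by rw [h0]; exact Finset.mem_univ _
        rw [Finset.mem_singleton, ← hx]
        exact (Finset.mem_filter.mp this).2
      have h3 := Finset.card_le_card this
      rw [Finset.card_singleton] at h3
      unfold pt at hQ
      omega
  have h3 : 3 * pt Q ≤ me2 m Q := by
    rw [h1]
    have := Finset.sum_le_sum h2
    rw [Finset.sum_const, smul_eq_mul, mul_comm] at this
    exact this
  unfold ms2
  have : (3 * pt Q : ℤ) ≤ me2 m Q := by exact_mod_cast h3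
  have h4 : (2 : ℤ) ≤ pt Q := by exact_mod_cast hQ
  linarith

/-- crossing edges: those at `x` and the others -/
lemma me2_vertex {L : Type} {m : K → K → ℕ} (hm : MSym m) (x : K) (Q : K → L) :
    me2 m Q = E (wt m Q) {x}ᶜ {x}ᶜ + 2 * ∑ z, if Q x ≠ Q z then m x z else 0 := by
  have : me2 m Q = E (wt m Q) Finset.univ Finset.univ := rfl
  rw [this, E_univ_split _ (wt_symm hm Q) {x}]
  have e1 : E (wt m Q) {x} {x} = 0 := by simp [E, wt]
  have e2 : E (wt m Q) {x} {x}ᶜ = ∑ z, if Q x ≠ Q z then m x z else 0 := by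
    unfold E
    rw [Finset.sum_singleton]
    have := Finset.sum_add_sum_compl ({x} : Finset K) (fun z => if Q x ≠ Q z then m x z else 0)
    rw [← this, Finset.sum_singleton]
    simp [wt]
  rw [e1, e2, zero_add]

lemma E_wt_congr {L : Type} (m : K → K → ℕ) {Q Q' : K → L} (A : Finset K)
    (h : ∀ x ∈ A, Q x = Q' x) : E (wt m Q) A A = E (wt m Q') A A := by
  unfold E
  refine Finset.sum_congr rfl fun x hx => Finset.sum_congr rfl fun y hy => ?_
  simp only [wt, h x hx, h y hy]

/-- splitting off a vertex increases the number of colours by one -/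
lemma pt_split {L : Type} {Q Q' : K → L} (x w : K) (hw : w ≠ x) (hQ : Q x = Q w)
    (hx : ∀ z, z ≠ x → Q' z ≠ Q' x) (hQQ : ∀ z, z ≠ x → Q z = Q' z) : pt Q' = pt Q + 1 := by
  unfold pt
  have e1 : Finset.univ.image Q' = insert (Q' x) (({x}ᶜ : Finset K).image Q') := by
    rw [← Finset.image_insert, Finset.insert_compl_self]
  have e2 : Finset.univ.image Q = ({x}ᶜ : Finset K).image Q' := by
    ext l
    simp only [Finset.mem_image, Finset.mem_univ, true_and, Finset.mem_compl, Finset.mem_singleton]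
    constructor
    · rintro ⟨z, rfl⟩
      by_cases hz : z = x
      · subst hz
        exact ⟨w, hw, by rw [hQ, hQQ w hw]⟩
      · exact ⟨z, hz, (hQQ z hz).symm⟩
    · rintro ⟨z, hz, rfl⟩
      exact ⟨z, hQQ z hz⟩
  rw [e1, e2, Finset.card_insert_of_notMem]
  simp only [Finset.mem_image, Finset.mem_compl, Finset.mem_singleton, not_exists, not_and]
  exact fun z hz => hx z hz

theorem ce : T_CE := by
  intro K _ m x₀ x₁ hm h01 hdeg hm01 hall hten
  have hall' : ∀ (L : Type) (Q : K → L), 0 ≤ ms2 m Q := by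
    intro L Q
    obtain ⟨Q', hQ'⟩ := exists_relabel Q
    rw [← ms2_congr m hQ']
    exact hall Q'
  have hten' : ∀ (L : Type) (Q : K → L) (y : K), 0 < m x₁ y → Q x₁ ≠ Q y → 10 ≤ ms2 m Q := by
    intro L Q y hy hne
    obtain ⟨Q', hQ'⟩ := exists_relabel Q
    rw [← ms2_congr m hQ']
    exact hten Q' y hy (fun k => hne ((hQ' _ _).mp k))
  have hm10 : m x₁ x₀ = 2 := by rw [hm.1]; exact hm01
  -- the vertex x₁ is alone
  have alone : ∀ (L : Type) (Q : K → L) (y : K), y ≠ x₀ → 0 < m x₁ y →
      (∀ z, z ≠ x₁ → Q z ≠ Q x₁) → 18 ≤ ms2 m Q := by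
    intro L Q y hy0 hy hal
    have hy1 : y ≠ x₁ := by
      rintro rfl
      rw [hm.2] at hy
      exact lt_irrefl _ hy
    set Q' : K → L := Function.update Q x₁ (Q x₀) with hQ'
    have q1 : Q' x₁ = Q x₀ := by simp [hQ']
    have q2 : ∀ z, z ≠ x₁ → Q' z = Q z := fun z hz => by simp [hQ', hz]
    have hpt : pt Q = pt Q' + 1 :=
      pt_split x₁ x₀ h01 (by rw [q1, q2 x₀ h01]) hal q2
    have e0 := me2_vertex hm x₁ Q
    have e1 := me2_vertex hm x₁ Q'
    have e2 : E (wt m Q) {x₁}ᶜ {x₁}ᶜ = E (wt m Q') {x₁}ᶜ {x₁}ᶜ :=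
      E_wt_congr m _ (fun z hz => by
        rw [Finset.mem_compl, Finset.mem_singleton] at hz
        exact (q2 z hz).symm)
    -- comparison of the edges at x₁
    have e3 : ∑ z, (if Q x₁ ≠ Q z then m x₁ z else 0) =
        ∑ z, (if Q' x₁ ≠ Q' z then m x₁ z else 0) +
        ∑ z, (if Q x₀ = Q z then m x₁ z else 0) := by
      rw [← Finset.sum_add_distrib]
      refine Finset.sum_congr rfl fun z _ => ?_
      by_cases hz : z = x₁
      · subst hz
        simp [hm.2]
      · rw [q1, q2 z hz, if_pos (hal z hz).symm]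
        by_cases hzz : Q x₀ = Q z <;> simp [hzz]
    by_cases hyy : Q y = Q x₀
    · have h3 : 3 ≤ ∑ z, (if Q x₀ = Q z then m x₁ z else 0) := by
        have : ∑ z ∈ ({x₀, y} : Finset K), (if Q x₀ = Q z then m x₁ z else 0) ≤
            ∑ z, (if Q x₀ = Q z then m x₁ z else 0) :=
          Finset.sum_le_sum_of_subset (Finset.subset_univ _)
        rw [Finset.sum_pair hy0.symm] at this
        rw [if_pos rfl, if_pos hyy.symm] at this
        omega
      have h0 := hall' L Q'
      unfold ms2 at h0 ⊢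
      rw [e1] at h0
      rw [e0, e2, e3, hpt]
      push_cast at h0 ⊢
      have : (3 : ℤ) ≤ ((∑ z, (if Q x₀ = Q z then m x₁ z else 0) : ℕ) : ℤ) := by exact_mod_cast h3
      push_cast at this
      linarith
    · have h3 : 2 ≤ ∑ z, (if Q x₀ = Q z then m x₁ z else 0) := by
        have : ∑ z ∈ ({x₀} : Finset K), (if Q x₀ = Q z then m x₁ z else 0) ≤
            ∑ z, (if Q x₀ = Q z then m x₁ z else 0) :=
          Finset.sum_le_sum_of_subset (Finset.subset_univ _)
        rw [Finset.sum_singleton] at this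
        rw [if_pos rfl] at this
        omega
      have h0 := hten' L Q' y hy (by rw [q1, q2 y hy1]; exact fun k => hyy k.symm)
      unfold ms2 at h0 ⊢
      rw [e1] at h0
      rw [e0, e2, e3, hpt]
      push_cast at h0 ⊢
      have : (2 : ℤ) ≤ ((∑ z, (if Q x₀ = Q z then m x₁ z else 0) : ℕ) : ℤ) := by exact_mod_cast h3
      push_cast at this
      linarith
  intro Q y hy0 hy hQ0 hQy
  by_cases hal : ∀ z, z ≠ x₁ → Q z ≠ Q x₁
  · exact alone K Q y hy0 hy hal
  · push Not at hal
    obtain ⟨w, hw, hwQ⟩ := hal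
    obtain ⟨L, s, n, hs, hn⟩ := exists_opt K
    set Q' : K → L := fun z => if z = x₁ then n else s (Q z) with hQ'
    have q1 : Q' x₁ = n := by simp [hQ']
    have q2 : ∀ z, z ≠ x₁ → Q' z = s (Q z) := fun z hz => by simp [hQ', hz]
    have h18 := alone L Q' y hy0 hy (fun z hz => by rw [q1, q2 z hz]; exact hn _)
    have hpt : pt Q' = pt Q + 1 := by
      rw [pt_split (Q := fun z => s (Q z)) (Q' := Q') x₁ w hw (by rw [hwQ])
        (fun z hz => by rw [q1, q2 z hz]; exact hn _) (fun z hz => (q2 z hz).symm)]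
      congr 1
      exact pt_congr (fun u w => hs.eq_iff)
    have e0 := me2_vertex hm x₁ Q
    have e1 := me2_vertex hm x₁ Q'
    have e2 : E (wt m Q) {x₁}ᶜ {x₁}ᶜ = E (wt m Q') {x₁}ᶜ {x₁}ᶜ := by
      unfold E
      refine Finset.sum_congr rfl fun a ha => Finset.sum_congr rfl fun b hb => ?_
      rw [Finset.mem_compl, Finset.mem_singleton] at ha hb
      simp only [wt, q2 a ha, q2 b hb, ne_eq, hs.eq_iff]
    have e3 : ∑ z, (if Q' x₁ ≠ Q' z then m x₁ z else 0) = 4 := by
      rw [← hdeg]
      unfold mdeg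
      refine Finset.sum_congr rfl fun z _ => ?_
      by_cases hz : z = x₁
      · subst hz
        simp [hm.2]
      · rw [q1, q2 z hz, if_pos (hn _).symm]
    have e4 : 3 ≤ ∑ z, (if Q x₁ ≠ Q z then m x₁ z else 0) := by
      have : ∑ z ∈ ({x₀, y} : Finset K), (if Q x₁ ≠ Q z then m x₁ z else 0) ≤
          ∑ z, (if Q x₁ ≠ Q z then m x₁ z else 0) :=
        Finset.sum_le_sum_of_subset (Finset.subset_univ _)
      rw [Finset.sum_pair hy0.symm] at this
      rw [if_pos hQ0, if_pos hQy] at this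
      omega
    unfold ms2 at h18 ⊢
    rw [e1, e3, ← e2, hpt] at h18
    rw [e0]
    push_cast at h18 ⊢
    have : (3 : ℤ) ≤ ((∑ z, (if Q x₁ ≠ Q z then m x₁ z else 0) : ℕ) : ℤ) := by exact_mod_cast e4
    push_cast at this
    linarith

end

end Pool.Agent.H61.MG
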