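import Pool.Agent.H61.MG.CC4
import Pool.Agent.H61.MG.CE

/-!
# Bounds in a minimal set with two leaving edges (MG project)
-/

set_option autoImplicit false
set_option linter.unusedSectionVars false

open Classical

namespace Pool.Agent.H61.MG

open Pool.Agent.H52.MG

section
variable {K : Type} [Fintype K]

/-- the crossing link contributes two -/
lemma E_wt_mst (m : K → K → ℕ) {f g : K} (Q : K → K) {Z : Finset K} (hf : f ∈ Z) (hg : g ∈ Z) :
    E (wt (mst m f g) Q) Z Z = E (wt m Q) Z Z + 2 * (if Q f ≠ Q g then 1 else 0) := by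
  by_cases h : Q f = Q g
  · rw [if_neg (by simpa using h)]
    unfold E
    rw [mul_zero, add_zero]
    refine Finset.sum_congr rfl fun x _ => Finset.sum_congr rfl fun y _ => ?_
    unfold wt mst
    by_cases hxy : Q x = Q y
    · simp [hxy]
    · rw [if_pos hxy, if_pos hxy, if_neg, add_zero]
      rintro ⟨_, ⟨rfl, rfl⟩ | ⟨rfl, rfl⟩⟩
      · exact hxy h
      · exact hxy h.symm
  · have hfg : f ≠ g := fun k => h (by rw [k])
    rw [if_pos h]
    have h1 : ∀ a a' : K, a ∈ Z → a' ∈ Z →
        (∑ x ∈ Z, ∑ y ∈ Z, if x = a ∧ y = a' then 1 else 0) = 1 := by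
      intro a a' ha ha'
      have : ∀ x ∈ Z, (∑ y ∈ Z, if x = a ∧ y = a' then 1 else 0) = if x = a then 1 else 0 := by
        intro x _
        by_cases hx : x = a
        · simp [hx, ha']
        · simp [hx]
      rw [Finset.sum_congr rfl this, Finset.sum_ite_eq', if_pos ha]
    have h2 : 2 * 1 = (∑ x ∈ Z, ∑ y ∈ Z, if x = f ∧ y = g then 1 else 0) +
        (∑ x ∈ Z, ∑ y ∈ Z, if x = g ∧ y = f then 1 else 0) := by
      rw [h1 f g hf hg, h1 g f hg hf]
    rw [h2]
    unfold E
    rw [← Finset.sum_add_distrib, ← Finset.sum_add_distrib]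
    refine Finset.sum_congr rfl fun x _ => ?_
    rw [← Finset.sum_add_distrib, ← Finset.sum_add_distrib]
    refine Finset.sum_congr rfl fun y _ => ?_
    unfold wt mst
    by_cases h3 : x = f ∧ y = g
    · obtain ⟨rfl, rfl⟩ := h3
      simp [h, hfg, Ne.symm hfg]
    · by_cases h4 : x = g ∧ y = f
      · obtain ⟨rfl, rfl⟩ := h4
        simp [Ne.symm h, hfg, Ne.symm hfg]
      · simp [h3, h4]

/-- the crossing edges between `Z` and its complement -/
lemma E_wt_link {m : K → K → ℕ} {Z : Finset K} {f g f' g' : K} (h : Link m Z f g f' g')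
    (Q : K → K) : E (wt m Q) Z Zᶜ =
      (if Q f ≠ Q f' then 1 else 0) + (if Q g ≠ Q g' then 1 else 0) := by
  have h1 : ∀ a a' : K, a ∈ Z → a' ∈ Zᶜ →
      (∑ x ∈ Z, ∑ y ∈ Zᶜ, if Q x ≠ Q y then (if x = a ∧ y = a' then 1 else 0) else 0) =
      (if Q a ≠ Q a' then 1 else 0) := by
    intro a a' ha ha'
    have : ∀ x ∈ Z, (∑ y ∈ Zᶜ, if Q x ≠ Q y then (if x = a ∧ y = a' then 1 else 0) else 0) =
        if x = a then (if Q a ≠ Q a' then 1 else 0) else 0 := by
      intro x _
      by_cases hx : x = a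
      · subst hx
        have e : ∀ y ∈ Zᶜ, (if Q x ≠ Q y then (if x = x ∧ y = a' then 1 else 0) else 0) =
            if y = a' then (if Q x ≠ Q a' then 1 else 0) else 0 := by
          intro y _
          by_cases hy : y = a'
          · subst hy; simp
          · simp [hy]
        rw [Finset.sum_congr rfl e, Finset.sum_ite_eq', if_pos ha', if_pos rfl]
      · simp [hx]
    rw [Finset.sum_congr rfl this, Finset.sum_ite_eq', if_pos ha]
  rw [← h1 f f' h.1 (Finset.mem_compl.mpr h.2.2.1),
    ← h1 g g' h.2.1 (Finset.mem_compl.mpr h.2.2.2.1)]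
  unfold E
  rw [← Finset.sum_add_distrib]
  refine Finset.sum_congr rfl fun x hx => ?_
  rw [← Finset.sum_add_distrib]
  refine Finset.sum_congr rfl fun y hy => ?_
  unfold wt
  rw [h.2.2.2.2 x hx y hy]
  by_cases hxy : Q x = Q y <;> simp [hxy]

/-- the surplus is at least the surplus on `Z`; two more if the link crosses -/
lemma master {m : K → K → ℕ} (hm : MSym m) (h : MTt m) {Z : Finset K} (hZ : mcut m Z = 2)
    {f g f' g' : K} (hl : Link m Z f g f' g') (Q : K → K) :
    al m Z Q ≤ ms2 m Q ∧ (Q f ≠ Q g → al m Z Q + 2 ≤ ms2 m Q) := by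
  have e0 := ms2_split m hm Z Q
  rw [E_wt_link hl Q] at e0
  have hb := cb K m hm h Zᶜ (by rw [mcut_compl hm, hZ]) Q
  rw [al_eq] at hb
  rw [al_eq]
  set β := (5 * (E (wt m Q) Zᶜ Zᶜ : ℤ) - 12 * ((Zᶜ.image Q).card : ℤ) + 12) with hβ
  set α := (5 * (E (wt m Q) Z Z : ℤ) - 12 * ((Z.image Q).card : ℤ) + 12) with hα
  have hf : Q f ∈ Z.image Q := Finset.mem_image_of_mem Q hl.1
  have hg : Q g ∈ Z.image Q := Finset.mem_image_of_mem Q hl.2.1
  have hf' : Q f' ∈ Zᶜ.image Q := Finset.mem_image_of_mem Q (Finset.mem_compl.mpr hl.2.2.1)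
  have hg' : Q g' ∈ Zᶜ.image Q := Finset.mem_image_of_mem Q (Finset.mem_compl.mpr hl.2.2.2.1)
  have hb2 : Q f' = Q g' → 0 ≤ β := by
    intro hq
    apply hb.2
    refine ⟨Q f', fun x hx y hy hxy => ?_⟩
    rw [compl_compl] at hy
    rw [hm.1, hl.2.2.2.2 y hy x hx] at hxy
    by_cases h1 : y = f ∧ x = f'
    · rw [h1.2]
    · by_cases h2 : y = g ∧ x = g'
      · rw [h2.2, hq]
      · simp [h1, h2] at hxy
  set C := Z.image Q ∩ Zᶜ.image Q with hC
  have c1 : Q f = Q f' → 1 ≤ C.card := fun k =>
    Finset.card_pos.mpr ⟨Q f, Finset.mem_inter.mpr ⟨hf, by rw [k]; exact hf'⟩⟩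
  have c2 : Q g = Q g' → 1 ≤ C.card := fun k =>
    Finset.card_pos.mpr ⟨Q g, Finset.mem_inter.mpr ⟨hg, by rw [k]; exact hg'⟩⟩
  have c3 : Q f = Q f' → Q g = Q g' → Q f ≠ Q g → 2 ≤ C.card := by
    intro k1 k2 k3
    have : ({Q f, Q g} : Finset K) ⊆ C := by
      intro z hz
      rw [Finset.mem_insert, Finset.mem_singleton] at hz
      rcases hz with rfl | rfl
      · exact Finset.mem_inter.mpr ⟨hf, by rw [k1]; exact hf'⟩
      · exact Finset.mem_inter.mpr ⟨hg, by rw [k2]; exact hg'⟩
    have := Finset.card_le_card this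
    rwa [Finset.card_pair k3] at this
  have hb1 := hb.1
  by_cases p : Q f = Q f'
  · by_cases r : Q g = Q g'
    · simp only [p, r, ne_eq, not_true_eq_false, if_false] at e0
      by_cases hc : 2 ≤ C.card
      · have : (2 : ℤ) ≤ (C.card : ℤ) := by exact_mod_cast hc
        push_cast at e0
        constructor
        · linarith
        · intro _; linarith
      · have hfg : Q f = Q g := by
          by_contra hne
          exact hc (c3 p r hne)
        have hb3 := hb2 (by rw [← p, ← r, hfg])
        have : (1 : ℤ) ≤ (C.card : ℤ) := by exact_mod_cast c1 p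
        push_cast at e0
        constructor
        · linarith
        · intro k; exact absurd hfg k
    · simp only [p, r, ne_eq, not_true_eq_false, not_false_eq_true, if_false, if_true] at e0
      have : (1 : ℤ) ≤ (C.card : ℤ) := by exact_mod_cast c1 p
      push_cast at e0
      constructor
      · linarith
      · intro _; linarith
  · by_cases r : Q g = Q g'
    · simp only [p, r, ne_eq, not_true_eq_false, not_false_eq_true, if_false, if_true] at e0
      have : (1 : ℤ) ≤ (C.card : ℤ) := by exact_mod_cast c2 r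
      push_cast at e0
      constructor
      · linarith
      · intro _; linarith
    · simp only [p, r, ne_eq, not_false_eq_true, if_true] at e0
      have : (0 : ℤ) ≤ (C.card : ℤ) := Int.natCast_nonneg _
      push_cast at e0
      constructor
      · linarith
      · intro _; linarith

/-- the fibres of a colouring of `Z` -/
noncomputable def fib (Z : Finset K) (Q : K → K) (k : K) : Finset K := Z.filter (fun x => Q x = k)

lemma mem_fib {Z : Finset K} {Q : K → K} {k x : K} : x ∈ fib Z Q k ↔ x ∈ Z ∧ Q x = k :=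
  Finset.mem_filter

lemma fib_sub (Z : Finset K) (Q : K → K) (k : K) : fib Z Q k ⊆ Z := Finset.filter_subset _ _

lemma fib_nonempty {Z : Finset K} {Q : K → K} {k : K} (hk : k ∈ Z.image Q) :
    (fib Z Q k).Nonempty := by
  obtain ⟨x, hx, hxk⟩ := Finset.mem_image.mp hk
  exact ⟨x, mem_fib.mpr ⟨hx, hxk⟩⟩

lemma fib_ne {Z : Finset K} {Q : K → K} (h2 : 2 ≤ (Z.image Q).card) (k : K) : fib Z Q k ≠ Z := by
  intro h0
  have : Z.image Q ⊆ {k} := by
    intro l hl
    obtain ⟨x, hx, hxl⟩ := Finset.mem_image.mp hl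
    rw [← h0, mem_fib] at hx
    rw [Finset.mem_singleton, ← hxl, hx.2]
  have h3 := Finset.card_le_card this
  rw [Finset.card_singleton] at h3
  omega

lemma E_wt_fib (μ : K → K → ℕ) (Z : Finset K) (Q : K → K) :
    E (wt μ Q) Z Z = ∑ k ∈ Z.image Q, cutI μ Z (fib Z Q k) := E_wt_fiber μ Z Q

lemma two_le_image {Z : Finset K} {Q : K → K} {x y : K} (hx : x ∈ Z) (hy : y ∈ Z)
    (hxy : Q x ≠ Q y) : 2 ≤ (Z.image Q).card := by
  have : ({Q x, Q y} : Finset K) ⊆ Z.image Q := by
    intro z hz
    rw [Finset.mem_insert, Finset.mem_singleton] at hz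
    rcases hz with rfl | rfl
    · exact Finset.mem_image_of_mem Q hx
    · exact Finset.mem_image_of_mem Q hy
  have := Finset.card_le_card this
  rwa [Finset.card_pair hxy] at this

theorem cc1 : T_CC1 := by
  intro K _ m hm h Z hZ hdeg Q x hx y hy hxy
  obtain ⟨f, g, f', g', hl⟩ := lnk K m Z hZ.1
  obtain ⟨M1, M2⟩ := master hm h hZ.1 hl Q
  have ht := two_le_image hx hy hxy
  have h3 : ∀ k ∈ Z.image Q, 3 ≤ cutI (mst m f g) Z (fib Z Q k) := fun k hk =>
    cc4 K m hm h Z hZ hdeg f g f' g' hl _ (fib_sub _ _ _) (fib_nonempty hk) (fib_ne ht k)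
  have hE : 3 * (Z.image Q).card ≤ E (wt (mst m f g) Q) Z Z := by
    rw [E_wt_fib]
    have := Finset.sum_le_sum h3
    rw [Finset.sum_const, smul_eq_mul, mul_comm] at this
    exact this
  rw [al_eq] at M1 M2
  have ht' : (2 : ℤ) ≤ ((Z.image Q).card : ℤ) := by exact_mod_cast ht
  have hE' : (3 * (Z.image Q).card : ℤ) ≤ (E (wt (mst m f g) Q) Z Z : ℤ) := by exact_mod_cast hE
  have hEm := E_wt_mst m Q hl.1 hl.2.1
  by_cases hc : Q f = Q g
  · rw [if_neg (by simpa using hc), mul_zero, add_zero] at hEm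
    rw [hEm] at hE'
    constructor
    · linarith
    · intro _; linarith
  · rw [if_pos hc] at hEm
    have hEm' : (E (wt (mst m f g) Q) Z Z : ℤ) = (E (wt m Q) Z Z : ℤ) + 2 := by
      rw [hEm]; push_cast; ring
    have M3 := M2 hc
    constructor
    · linarith
    · intro hA
      -- both fibres have cut at least four
      have hnot : ∀ k, ¬ (f ∈ fib Z Q k ∧ g ∈ fib Z Q k) := by
        rintro k ⟨h1, h2⟩
        rw [mem_fib] at h1 h2
        exact hc (h1.2.trans h2.2.symm)
      have c1 : 4 ≤ cutI (mst m f g) Z (fib Z Q (Q x)) := by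
        rw [cutI_mst hl (fib_sub _ _ _) (hnot _)]
        exact hA _ (mem_fib.mpr ⟨hx, rfl⟩) (fun k => hxy (mem_fib.mp k).2.symm)
      have c2 : 4 ≤ cutI (mst m f g) Z (fib Z Q (Q y)) := by
        rw [cutI_mst hl (fib_sub _ _ _) (hnot _), ← mcut_compl hm]
        apply hA
        · rw [Finset.mem_compl, mem_fib]
          exact fun k => hxy k.2
        · rw [Finset.mem_compl, mem_fib, not_not]
          exact ⟨hy, rfl⟩
      have h4 : 3 * (Z.image Q).card + 2 ≤ E (wt (mst m f g) Q) Z Z := by
        rw [E_wt_fib]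
        have h5 : ∀ k ∈ Z.image Q, 3 + ((if k = Q x then 1 else 0) + (if k = Q y then 1 else 0)) ≤
            cutI (mst m f g) Z (fib Z Q k) := by
          intro k hk
          by_cases k1 : k = Q x
          · subst k1
            rw [if_pos rfl, if_neg hxy]
            omega
          · by_cases k2 : k = Q y
            · subst k2
              rw [if_pos rfl, if_neg (Ne.symm hxy)]
              omega
            · rw [if_neg k1, if_neg k2]
              exact h3 k hk
        have := Finset.sum_le_sum h5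
        rw [Finset.sum_add_distrib, Finset.sum_const, smul_eq_mul, mul_comm,
          Finset.sum_add_distrib, Finset.sum_ite_eq', Finset.sum_ite_eq',
          if_pos (Finset.mem_image_of_mem Q hx), if_pos (Finset.mem_image_of_mem Q hy)] at this
        omega
      have h4' : (3 * (Z.image Q).card + 2 : ℤ) ≤ (E (wt (mst m f g) Q) Z Z : ℤ) := by
        exact_mod_cast h4
      linarith

/-- the crossing edges inside `Z` are even in number (ordered pairs) -/
lemma E_wt_even {μ : K → K → ℕ} (hμ : MSym μ) (Z : Finset K) (Q : K → K) :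
    Even (E (wt μ Q) Z Z) := by
  have h := me2_even (fun x y => if x ∈ Z ∧ y ∈ Z then μ x y else 0)
    ⟨fun x y => by
      simp only [hμ.1 x y]
      exact if_congr and_comm rfl rfl, fun x => by simp [hμ.2 x]⟩ Q
  have e : me2 (fun x y => if x ∈ Z ∧ y ∈ Z then μ x y else 0) Q = E (wt μ Q) Z Z := by
    unfold me2 E wt
    rw [← Finset.sum_subset (Finset.subset_univ Z)]
    · refine Finset.sum_congr rfl fun x hx => ?_
      rw [← Finset.sum_subset (Finset.subset_univ Z)]
      · exact Finset.sum_congr rfl fun y hy => by simp [hx, hy]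
      · intro y _ hy
        simp [hy]
    · intro x _ hx
      exact Finset.sum_eq_zero fun y _ => by simp [hx]
  rwa [e] at h

theorem cc2 : T_CC2 := by
  intro K _ m hm h Z hZ hdeg x hx hout Q hal
  obtain ⟨f, g, f', g', hl⟩ := lnk K m Z hZ.1
  obtain ⟨M1, M2⟩ := master hm h hZ.1 hl Q
  -- another vertex of Z
  obtain ⟨y, hy, hyx⟩ := Finset.exists_mem_ne (by have := hZ.2.1; omega : 1 < Z.card) x
  have hxy : Q x ≠ Q y := fun k => hyx (hal y k.symm)
  have ht := two_le_image hx hy hxy
  have h3 : ∀ k ∈ Z.image Q, 3 ≤ cutI (mst m f g) Z (fib Z Q k) := fun k hk =>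
    cc4 K m hm h Z hZ hdeg f g f' g' hl _ (fib_sub _ _ _) (fib_nonempty hk) (fib_ne ht k)
  have hE : 3 * (Z.image Q).card ≤ E (wt (mst m f g) Q) Z Z := by
    rw [E_wt_fib]
    have := Finset.sum_le_sum h3
    rw [Finset.sum_const, smul_eq_mul, mul_comm] at this
    exact this
  rw [al_eq] at M1 M2
  have hE' : (3 * (Z.image Q).card : ℤ) ≤ (E (wt (mst m f g) Q) Z Z : ℤ) := by exact_mod_cast hE
  have hEm := E_wt_mst m Q hl.1 hl.2.1
  by_cases hc : Q f = Q g
  · rw [if_neg (by simpa using hc), mul_zero, add_zero] at hEm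
    rw [hEm] at hE'
    have ht' : (2 : ℤ) ≤ ((Z.image Q).card : ℤ) := by exact_mod_cast ht
    linarith
  · rw [if_pos hc] at hEm
    have hEm' : (E (wt (mst m f g) Q) Z Z : ℤ) = (E (wt m Q) Z Z : ℤ) + 2 := by
      rw [hEm]; push_cast; ring
    have M3 := M2 hc
    have hxf : x ≠ f := by
      rintro rfl
      have h1 := hout f' (Finset.mem_compl.mpr hl.2.2.1)
      rw [hl.2.2.2.2 x hx f' (Finset.mem_compl.mpr hl.2.2.1)] at h1
      simp at h1
    have hxg : x ≠ g := by
      rintro rfl
      have h1 := hout g' (Finset.mem_compl.mpr hl.2.2.2.1)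
      rw [hl.2.2.2.2 x hx g' (Finset.mem_compl.mpr hl.2.2.2.1)] at h1
      simp at h1
    have hQf : Q f ≠ Q x := fun k => hxf (hal f k).symm
    have hQg : Q g ≠ Q x := fun k => hxg (hal g k).symm
    have ht3 : 3 ≤ (Z.image Q).card := by
      have : ({Q x, Q f, Q g} : Finset K) ⊆ Z.image Q := by
        intro z hz
        rw [Finset.mem_insert, Finset.mem_insert, Finset.mem_singleton] at hz
        rcases hz with rfl | rfl | rfl
        · exact Finset.mem_image_of_mem Q hx
        · exact Finset.mem_image_of_mem Q hl.1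
        · exact Finset.mem_image_of_mem Q hl.2.1
      have := Finset.card_le_card this
      rw [Finset.card_insert_of_notMem, Finset.card_pair hc] at this
      · exact this
      · rw [Finset.mem_insert, Finset.mem_singleton]
        rintro (k | k)
        · exact hQf k.symm
        · exact hQg k.symm
    obtain ⟨r, hr⟩ := E_wt_even (mst_symm hm f g) Z Q
    rw [hr] at hE' hEm' hE
    have ht4 : (3 : ℤ) ≤ ((Z.image Q).card : ℤ) := by exact_mod_cast ht3
    by_cases h4 : (Z.image Q).card = 3
    · rw [h4] at hE M3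
      have : 5 ≤ r := by omega
      have : (5 : ℤ) ≤ (r : ℤ) := by exact_mod_cast this
      push_cast at hEm' M3
      linarith
    · have : 4 ≤ (Z.image Q).card := by omega
      have : (4 : ℤ) ≤ ((Z.image Q).card : ℤ) := by exact_mod_cast this
      push_cast at hEm' hE'
      linarith

end

end Pool.Agent.H61.MG
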