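import Pool.Agent.H61.MG.Tools

/-!
# Cuts in a minimal set with two leaving edges (MG project)
-/

set_option autoImplicit false
set_option linter.unusedSectionVars false

open Classical

namespace Pool.Agent.H61.MG

open Pool.Agent.H52.MG

section
variable {K : Type} [Fintype K]

lemma ssubset_ne_univ {A Z : Finset K} (hA : A ⊆ Z) (hAZ : A ≠ Z) : A ≠ Finset.univ := by
  rintro rfl
  exact hAZ (Finset.Subset.antisymm hA (Finset.subset_univ _))

/-- proper subsets of `Z` with at least two elements have at least three leaving edges -/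
lemma three_le_of_minZ {m : K → K → ℕ} (hm : MSym m) (h : MTt m) {Z : Finset K} (hZ : MinZ m Z)
    {A : Finset K} (hA : A ⊆ Z) (hAZ : A ≠ Z) (h2 : 2 ≤ A.card) : 3 ≤ mcut m A := by
  have h1 := two_le_mcut hm h (Finset.card_pos.mp (by omega)) (ssubset_ne_univ hA hAZ)
  have h3 := hZ.2.2 A (Finset.ssubset_iff_subset_ne.mpr ⟨hA, hAZ⟩) h2
  omega

theorem cc4 : T_CC4 := by
  intro K _ m hm h Z hZ hdeg f g f' g' hl A hA hne hAZ
  -- it is enough to treat sets not containing both ends
  have key : ∀ B : Finset K, B ⊆ Z → B.Nonempty → B ≠ Z → ¬ (f ∈ B ∧ g ∈ B) →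
      3 ≤ cutI (mst m f g) Z B := by
    intro B hB hBn hBZ hfg
    rw [cutI_mst hl hB hfg]
    by_cases hc : 2 ≤ B.card
    · exact three_le_of_minZ hm h hZ hB hBZ hc
    · have h1 : B.card = 1 := by
        have := Finset.card_pos.mpr hBn
        omega
      obtain ⟨x, rfl⟩ := Finset.card_eq_one.mp h1
      rw [mcut_singleton hm]
      exact hdeg x (hB (Finset.mem_singleton_self x))
  by_cases hfg : f ∈ A ∧ g ∈ A
  · rw [← cutI_comm (mst_symm hm f g) hA]
    apply key _ Finset.sdiff_subset
    · rw [Finset.sdiff_nonempty]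
      intro hZA
      exact hAZ (Finset.Subset.antisymm hA hZA)
    · intro h0
      obtain ⟨x, hx⟩ := hne
      have := hA hx
      rw [← h0, Finset.mem_sdiff] at this
      exact this.2 hx
    · rintro ⟨h1, _⟩
      rw [Finset.mem_sdiff] at h1
      exact h1.2 hfg.1
  · exact key A hA hne hAZ hfg

theorem cc5 : T_CC5 := by
  intro K _ m hm h Z f g f' g' hl x hx y hy hcut A hxA hyA
  set A0 := A ∩ Z with hA0
  set B := A \ Z with hB
  have hA0Z : A0 ⊆ Z := Finset.inter_subset_right
  have hBZ : B ⊆ Zᶜ := by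
    intro z hz
    rw [hB, Finset.mem_sdiff] at hz
    exact Finset.mem_compl.mpr hz.2
  have hAu : A = A0 ∪ B := by
    ext z
    simp only [hA0, hB, Finset.mem_union, Finset.mem_inter, Finset.mem_sdiff]
    tauto
  have hAc : Aᶜ = (Z \ A0) ∪ (Zᶜ \ B) := by
    ext z
    simp only [hA0, hB, Finset.mem_union, Finset.mem_inter, Finset.mem_sdiff, Finset.mem_compl]
    tauto
  have hd1 : Disjoint A0 B := by
    rw [Finset.disjoint_left]
    intro z h1 h2
    exact (Finset.mem_compl.mp (hBZ h2)) (hA0Z h1)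
  have hd2 : Disjoint (Z \ A0) (Zᶜ \ B) := by
    rw [Finset.disjoint_left]
    intro z h1 h2
    rw [Finset.mem_sdiff] at h1 h2
    exact (Finset.mem_compl.mp h2.1) h1.1
  have e1 : mcut m A = E m A0 (Z \ A0) + E m A0 (Zᶜ \ B) + (E m B (Z \ A0) + E m B (Zᶜ \ B)) := by
    rw [mcut_eq, hAc]
    conv_lhs => rw [hAu]
    rw [E_union_left m _ hd1, E_union_right m _ hd2, E_union_right m _ hd2]
  have hxA0 : x ∈ A0 := Finset.mem_inter.mpr ⟨hxA, hx⟩
  have hyA0 : y ∉ A0 := fun k => hyA (Finset.mem_inter.mp k).1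
  have h4 := hcut A0 hA0Z hxA0 hyA0
  rw [cutI_eq, E_mst m f g Finset.disjoint_sdiff] at h4
  have e2 := E_link hl hA0Z (Finset.sdiff_subset : Zᶜ \ B ⊆ Zᶜ)
  have e3 := E_link hl (Finset.sdiff_subset : Z \ A0 ⊆ Z) hBZ
  rw [E_comm hm] at e3
  have hf := hl.1
  have hg := hl.2.1
  have hf' := hl.2.2.1
  have hg' := hl.2.2.2.1
  simp only [Finset.mem_sdiff, Finset.mem_compl, hf, hg, hf', hg', not_false_eq_true,
    true_and] at h4 e2 e3
  -- the cut of B
  have hBcut : B.Nonempty → 2 ≤ E m B Z + E m B (Zᶜ \ B) := by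
    intro hBn
    have h5 := two_le_mcut hm h hBn (by
      rintro h0
      have : f ∈ B := by rw [h0]; exact Finset.mem_univ _
      exact (Finset.mem_compl.mp (hBZ this)) hf)
    have e4 : Bᶜ = Z ∪ (Zᶜ \ B) := by
      ext z
      simp only [Finset.mem_union, Finset.mem_sdiff, Finset.mem_compl]
      constructor
      · intro h1
        by_cases h2 : z ∈ Z
        · exact Or.inl h2
        · exact Or.inr ⟨h2, h1⟩
      · rintro (h1 | h1)
        · exact fun k => (Finset.mem_compl.mp (hBZ k)) h1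
        · exact h1.2
    rw [mcut_eq, e4, E_union_right] at h5
    · exact h5
    · rw [Finset.disjoint_left]
      intro z h1 h2
      rw [Finset.mem_sdiff] at h2
      exact (Finset.mem_compl.mp h2.1) h1
  have e5 := E_link hl (subset_refl Z) hBZ
  rw [E_comm hm] at e5
  simp only [hf, hg, true_and] at e5
  rw [e5] at hBcut
  by_cases h1 : f ∈ A0 <;> by_cases h2 : g ∈ A0 <;> by_cases h3 : f' ∈ B <;>
    by_cases h6 : g' ∈ B <;> simp only [h1, h2, h3, h6, not_true_eq_false, not_false_eq_true,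
      and_true, and_false, true_and, false_and, or_false, or_true, if_true, if_false, or_self,
      false_or] at h4 e2 e3 hBcut <;>
    first
      | omega
      | (have := hBcut ⟨_, h3⟩; omega)
      | (have := hBcut ⟨_, h6⟩; omega)

end

end Pool.Agent.H61.MG
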