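import Pool.Agent.H52.MG.Basic
import Pool.Agent.H52.MG.Targets

/-!
# Tools for cuts in multigraphs (MG project)
-/

set_option autoImplicit false
set_option linter.unusedSectionVars false

open Classical

namespace Pool.Agent.H61.MG

open Pool.Agent.H52.MG

section
variable {K : Type} [Fintype K]

/-- number of edges between two sets (ordered) -/
noncomputable def E (m : K → K → ℕ) (A B : Finset K) : ℕ := ∑ x ∈ A, ∑ y ∈ B, m x y

lemma mcut_eq (m : K → K → ℕ) (Z : Finset K) : mcut m Z = E m Z Zᶜ := rfl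

lemma cutI_eq (m : K → K → ℕ) (Z A : Finset K) : cutI m Z A = E m A (Z \ A) := rfl

lemma E_comm {m : K → K → ℕ} (hm : MSym m) (A B : Finset K) : E m A B = E m B A := by
  unfold E
  rw [Finset.sum_comm]
  exact Finset.sum_congr rfl fun x _ => Finset.sum_congr rfl fun y _ => hm.1 _ _

lemma E_union_left (m : K → K → ℕ) {A B : Finset K} (C : Finset K) (h : Disjoint A B) :
    E m (A ∪ B) C = E m A C + E m B C := by
  unfold E
  rw [Finset.sum_union h]

lemma E_union_right (m : K → K → ℕ) {A B : Finset K} (C : Finset K) (h : Disjoint A B) :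
    E m C (A ∪ B) = E m C A + E m C B := by
  unfold E
  rw [← Finset.sum_add_distrib]
  exact Finset.sum_congr rfl fun x _ => Finset.sum_union h

lemma E_empty_left (m : K → K → ℕ) (C : Finset K) : E m ∅ C = 0 := by simp [E]

lemma E_empty_right (m : K → K → ℕ) (C : Finset K) : E m C ∅ = 0 := by simp [E]

lemma E_mono {m : K → K → ℕ} {A A' B B' : Finset K} (hA : A ⊆ A') (hB : B ⊆ B') :
    E m A B ≤ E m A' B' := by
  unfold E
  calc ∑ x ∈ A, ∑ y ∈ B, m x y ≤ ∑ x ∈ A, ∑ y ∈ B', m x y :=
        Finset.sum_le_sum fun x _ => Finset.sum_le_sum_of_subset hB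
    _ ≤ ∑ x ∈ A', ∑ y ∈ B', m x y := Finset.sum_le_sum_of_subset hA

lemma le_E {m : K → K → ℕ} {A B : Finset K} {x y : K} (hx : x ∈ A) (hy : y ∈ B) :
    m x y ≤ E m A B := by
  have := E_mono (m := m) (Finset.singleton_subset_iff.mpr hx) (Finset.singleton_subset_iff.mpr hy)
  simpa [E] using this

lemma mcut_compl {m : K → K → ℕ} (hm : MSym m) (Z : Finset K) : mcut m Zᶜ = mcut m Z := by
  rw [mcut_eq, mcut_eq, compl_compl, E_comm hm]

lemma mcut_singleton {m : K → K → ℕ} (hm : MSym m) (x : K) : mcut m {x} = mdeg m x := by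
  unfold mcut mdeg
  rw [Finset.sum_singleton]
  have := Finset.sum_add_sum_compl ({x} : Finset K) (fun y => m x y)
  rw [← this, Finset.sum_singleton, hm.2 x, zero_add]

/-- splitting the cut of a subset of `Z` -/
lemma mcut_sub {m : K → K → ℕ} {Z A : Finset K} (hA : A ⊆ Z) :
    mcut m A = cutI m Z A + E m A Zᶜ := by
  rw [mcut_eq, cutI_eq, ← E_union_right]
  · congr 1
    ext x
    simp only [Finset.mem_compl, Finset.mem_union, Finset.mem_sdiff]
    constructor
    · intro h
      by_cases hx : x ∈ Z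
      · exact Or.inl ⟨hx, h⟩
      · exact Or.inr hx
    · rintro (h | h)
      · exact h.2
      · exact fun k => h (hA k)
  · rw [Finset.disjoint_left]
    intro x hx hx'
    simp only [Finset.mem_compl, Finset.mem_sdiff] at hx hx'
    exact hx' hx.1

lemma cutI_comm {m : K → K → ℕ} (hm : MSym m) {Z A : Finset K} (hA : A ⊆ Z) :
    cutI m Z (Z \ A) = cutI m Z A := by
  rw [cutI_eq, cutI_eq, E_comm hm]
  congr 1
  ext x
  simp only [Finset.mem_sdiff]
  constructor
  · rintro ⟨h1, h2⟩
    by_contra h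
    exact h2 ⟨h1, h⟩
  · intro h
    exact ⟨hA h, fun k => k.2 h⟩

lemma mst_symm {m : K → K → ℕ} (hm : MSym m) (f g : K) : MSym (mst m f g) := by
  refine ⟨fun x y => ?_, fun x => ?_⟩
  · unfold mst
    rw [hm.1 x y]
    congr 1
    refine if_congr ?_ rfl rfl
    tauto
  · unfold mst
    rw [hm.2 x, if_neg]
    rintro ⟨h, ⟨h1, h2⟩ | ⟨h1, h2⟩⟩
    · exact h (h1.symm.trans h2)
    · exact h (h2.symm.trans h1)

/-- number of edges between `A ⊆ Z` and the complement of `Z` -/
lemma E_link {m : K → K → ℕ} {Z : Finset K} {f g f' g' : K} (h : Link m Z f g f' g')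
    {A B : Finset K} (hA : A ⊆ Z) (hB : B ⊆ Zᶜ) :
    E m A B = (if f ∈ A ∧ f' ∈ B then 1 else 0) + (if g ∈ A ∧ g' ∈ B then 1 else 0) := by
  unfold E
  have h1 : ∀ a a' : K, (∑ x ∈ A, ∑ y ∈ B, if x = a ∧ y = a' then 1 else 0) =
      (if a ∈ A ∧ a' ∈ B then 1 else 0) := by
    intro a a'
    have : ∀ x ∈ A, (∑ y ∈ B, if x = a ∧ y = a' then 1 else 0) =
        if x = a then (if a' ∈ B then 1 else 0) else 0 := by
      intro x _
      by_cases hx : x = a
      · simp [hx]
      · simp [hx]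
    rw [Finset.sum_congr rfl this, Finset.sum_ite_eq']
    by_cases h1 : a ∈ A <;> by_cases h2 : a' ∈ B <;> simp [h1, h2]
  rw [← h1, ← h1, ← Finset.sum_add_distrib]
  refine Finset.sum_congr rfl fun x hx => ?_
  rw [← Finset.sum_add_distrib]
  exact Finset.sum_congr rfl fun y hy => h.2.2.2.2 x (hA hx) y (hB hy)

lemma E_link' {m : K → K → ℕ} {Z : Finset K} {f g f' g' : K} (h : Link m Z f g f' g')
    {A : Finset K} (hA : A ⊆ Z) :
    E m A Zᶜ = (if f ∈ A then 1 else 0) + (if g ∈ A then 1 else 0) := by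
  rw [E_link h hA (subset_refl _)]
  simp [h.2.2.1, h.2.2.2.1]

/-- edges of `mst` between two disjoint sets -/
lemma E_mst (m : K → K → ℕ) (f g : K) {A B : Finset K} (hAB : Disjoint A B) :
    E (mst m f g) A B = E m A B + (if f ∈ A ∧ g ∈ B ∨ g ∈ A ∧ f ∈ B then 1 else 0) := by
  unfold E mst
  simp only [Finset.sum_add_distrib]
  congr 1
  by_cases hfg : f = g
  · subst hfg
    simp only [ne_eq, not_true_eq_false, false_and, if_false, Finset.sum_const_zero, or_self]
    rw [if_neg]
    rintro ⟨h1, h2⟩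
    exact (Finset.disjoint_left.mp hAB) h1 h2
  · have h1 : ∀ a a' : K, (∑ x ∈ A, ∑ y ∈ B, if x = a ∧ y = a' then 1 else 0) =
      (if a ∈ A ∧ a' ∈ B then 1 else 0) := by
      intro a a'
      have : ∀ x ∈ A, (∑ y ∈ B, if x = a ∧ y = a' then 1 else 0) =
          if x = a then (if a' ∈ B then 1 else 0) else 0 := by
        intro x _
        by_cases hx : x = a
        · simp [hx]
        · simp [hx]
      rw [Finset.sum_congr rfl this, Finset.sum_ite_eq']
      by_cases h1 : a ∈ A <;> by_cases h2 : a' ∈ B <;> simp [h1, h2]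
    have h2 : (if f ∈ A ∧ g ∈ B ∨ g ∈ A ∧ f ∈ B then 1 else 0) =
        (if f ∈ A ∧ g ∈ B then 1 else 0) + (if g ∈ A ∧ f ∈ B then 1 else 0) := by
      by_cases h3 : f ∈ A ∧ g ∈ B
      · have h4 : ¬ (g ∈ A ∧ f ∈ B) := fun k => (Finset.disjoint_left.mp hAB) h3.1 k.2
        simp [h3, h4]
      · simp [h3]
    rw [h2, ← h1, ← h1, ← Finset.sum_add_distrib]
    refine Finset.sum_congr rfl fun x hx => ?_
    rw [← Finset.sum_add_distrib]
    refine Finset.sum_congr rfl fun y hy => ?_
    by_cases h3 : x = f ∧ y = g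
    · obtain ⟨rfl, rfl⟩ := h3
      simp [hfg, Ne.symm hfg]
    · by_cases h4 : x = g ∧ y = f
      · obtain ⟨rfl, rfl⟩ := h4
        simp [hfg, Ne.symm hfg]
      · simp [h3, h4]

/-- the link replaces the leaving edge -/
lemma cutI_mst {m : K → K → ℕ} {Z : Finset K} {f g f' g' : K} (h : Link m Z f g f' g')
    {A : Finset K} (hA : A ⊆ Z) (hfg : ¬ (f ∈ A ∧ g ∈ A)) :
    cutI (mst m f g) Z A = mcut m A := by
  rw [mcut_sub hA, cutI_eq, E_mst m f g Finset.disjoint_sdiff, cutI_eq, E_link' h hA]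
  congr 1
  have hf := h.1
  have hg := h.2.1
  by_cases h1 : f ∈ A <;> by_cases h2 : g ∈ A
  · exact absurd ⟨h1, h2⟩ hfg
  · simp [h1, h2, hg, Finset.mem_sdiff]
  · simp [h1, h2, hf, Finset.mem_sdiff]
  · simp [h1, h2, Finset.mem_sdiff]

/-- weights restricted to pairs of different colours -/
noncomputable def wt (m : K → K → ℕ) {L : Type} (Q : K → L) : K → K → ℕ :=
  fun x y => if Q x ≠ Q y then m x y else 0

lemma al_eq (m : K → K → ℕ) (Z : Finset K) (Q : K → K) :
    al m Z Q = 5 * (E (wt m Q) Z Z : ℤ) - 12 * ((Z.image Q).card : ℤ) + 12 := rfl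

lemma wt_symm {m : K → K → ℕ} (hm : MSym m) {L : Type} (Q : K → L) : MSym (wt m Q) := by
  refine ⟨fun x y => ?_, fun x => by simp [wt]⟩
  unfold wt
  rw [hm.1 x y]
  exact if_congr (by rw [ne_comm]) rfl rfl

lemma E_univ_split (m : K → K → ℕ) (hm : MSym m) (Z : Finset K) :
    E m Finset.univ Finset.univ = E m Z Z + E m Zᶜ Zᶜ + 2 * E m Z Zᶜ := by
  have hd : Disjoint Z Zᶜ := disjoint_compl_right
  have hu : (Finset.univ : Finset K) = Z ∪ Zᶜ := by simp
  rw [hu, E_union_left m _ hd, E_union_right m _ hd, E_union_right m _ hd, E_comm hm Zᶜ Z]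
  ring

/-- the general form of CA -/
lemma ms2_split {L : Type} (m : K → K → ℕ) (hm : MSym m) (Z : Finset K) (Q : K → L) :
    ms2 m Q = (5 * (E (wt m Q) Z Z : ℤ) - 12 * ((Z.image Q).card : ℤ) + 12)
      + (5 * (E (wt m Q) Zᶜ Zᶜ : ℤ) - 12 * ((Zᶜ.image Q).card : ℤ) + 12)
      + 10 * (E (wt m Q) Z Zᶜ : ℤ)
      + 12 * ((Z.image Q ∩ Zᶜ.image Q).card : ℤ) - 12 := by
  have h1 : me2 m Q = E (wt m Q) Finset.univ Finset.univ := rfl
  have h2 : pt Q + (Z.image Q ∩ Zᶜ.image Q).card = (Z.image Q).card + (Zᶜ.image Q).card := by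
    unfold pt
    rw [← Finset.card_union_add_card_inter (Z.image Q) (Zᶜ.image Q), ← Finset.image_union]
    congr 3
    simp
  unfold ms2
  rw [h1, E_univ_split _ (wt_symm hm Q) Z]
  have h3 : (pt Q : ℤ) = (Z.image Q).card + (Zᶜ.image Q).card
      - (Z.image Q ∩ Zᶜ.image Q).card := by
    have := congrArg (Nat.cast : ℕ → ℤ) h2
    push_cast at this
    linarith
  rw [h3]
  push_cast
  ring

theorem ca : T_CA := by
  intro K _ m hm Z Q
  rw [ms2_split m hm Z Q]
  rfl

/-- a type with one more element -/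
lemma exists_opt (K : Type) : ∃ (L : Type) (s : K → L) (n : L), Function.Injective s ∧
    ∀ k, s k ≠ n :=
  ⟨Option K, some, none, Option.some_injective K, fun k => Option.some_ne_none k⟩

/-- colouring of a side by the colours of `Q`, the other side gets one colour -/
lemma ms2_side {L : Type} (m : K → K → ℕ) (hm : MSym m) (Z : Finset K) (Q : K → L) (n : L)
    (hne : (Zᶜ).Nonempty) :
    ms2 m (fun x => if x ∈ Z then Q x else n) =
      (5 * (E (wt m Q) Z Z : ℤ) - 12 * ((Z.image Q).card : ℤ) + 12)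
      + 10 * ((∑ x ∈ Z, ∑ y ∈ Zᶜ, if Q x ≠ n then m x y else 0 : ℕ) : ℤ)
      + 12 * ((if n ∈ Z.image Q then 1 else 0 : ℕ) : ℤ) - 12 := by
  rw [ms2_split m hm Z]
  have i1 : Z.image (fun x => if x ∈ Z then Q x else n) = Z.image Q :=
    Finset.image_congr fun x hx => by simp [Finset.mem_coe.mp hx]
  have i2 : Zᶜ.image (fun x => if x ∈ Z then Q x else n) = {n} := by
    ext b
    simp only [Finset.mem_image, Finset.mem_singleton, Finset.mem_compl]
    constructor
    · rintro ⟨a, ha, rfl⟩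
      simp [ha]
    · rintro rfl
      obtain ⟨a, ha⟩ := hne
      exact ⟨a, Finset.mem_compl.mp ha, by simp [Finset.mem_compl.mp ha]⟩
  have i3 : (Z.image Q ∩ {n}).card = if n ∈ Z.image Q then 1 else 0 := by
    by_cases h : n ∈ Z.image Q
    · rw [if_pos h, Finset.inter_singleton_of_mem h, Finset.card_singleton]
    · rw [if_neg h, Finset.inter_singleton_of_notMem h, Finset.card_empty]
  have e1 : E (wt m (fun x => if x ∈ Z then Q x else n)) Z Z = E (wt m Q) Z Z := by
    unfold E
    refine Finset.sum_congr rfl fun x hx => Finset.sum_congr rfl fun y hy => ?_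
    simp [wt, hx, hy]
  have e2 : E (wt m (fun x => if x ∈ Z then Q x else n)) Zᶜ Zᶜ = 0 := by
    unfold E
    refine Finset.sum_eq_zero fun x hx => Finset.sum_eq_zero fun y hy => ?_
    simp [wt, Finset.mem_compl.mp hx, Finset.mem_compl.mp hy]
  have e3 : E (wt m (fun x => if x ∈ Z then Q x else n)) Z Zᶜ =
      ∑ x ∈ Z, ∑ y ∈ Zᶜ, if Q x ≠ n then m x y else 0 := by
    unfold E
    refine Finset.sum_congr rfl fun x hx => Finset.sum_congr rfl fun y hy => ?_
    simp [wt, hx, Finset.mem_compl.mp hy]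
  rw [i1, i2, e1, e2, e3, i3]
  rw [Finset.card_singleton]
  push_cast
  ring

lemma pt_side {L : Type} (Z : Finset K) (Q : K → L) (n : L) (hne : (Zᶜ).Nonempty) :
    pt (fun x => if x ∈ Z then Q x else n) = (insert n (Z.image Q)).card := by
  unfold pt
  congr 1
  ext b
  simp only [Finset.mem_image, Finset.mem_univ, true_and, Finset.mem_insert]
  constructor
  · rintro ⟨a, rfl⟩
    by_cases ha : a ∈ Z
    · rw [if_pos ha]
      exact Or.inr ⟨a, ha, rfl⟩
    · rw [if_neg ha]
      exact Or.inl rfl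
  · rintro (rfl | ⟨a, ha, rfl⟩)
    · obtain ⟨a, ha⟩ := hne
      exact ⟨a, by rw [if_neg (Finset.mem_compl.mp ha)]⟩
    · exact ⟨a, by rw [if_pos ha]⟩

/-- nonempty proper sets have at least two leaving edges -/
lemma two_le_mcut {m : K → K → ℕ} (hm : MSym m) (h : MTt m) {A : Finset K} (hA : A.Nonempty)
    (hA' : A ≠ Finset.univ) : 2 ≤ mcut m A := by
  have hne : (Aᶜ).Nonempty := by
    rw [Finset.nonempty_iff_ne_empty, ne_eq, Finset.compl_eq_empty_iff]
    exact hA'
  obtain ⟨L, s, n, hs, hn⟩ := exists_opt K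
  obtain ⟨a, ha⟩ := hA
  have i1 : A.image (fun _ : K => s a) = {s a} := Finset.image_const ⟨a, ha⟩ _
  have h2 : 2 ≤ pt (fun x => if x ∈ A then (fun _ : K => s a) x else n) := by
    rw [pt_side A (fun _ => s a) n hne, i1, Finset.card_pair (hn a).symm]
  have h3 := MTt_all h _ h2
  rw [ms2_side m hm A (fun _ => s a) n hne, i1] at h3
  have e1 : E (wt m (fun _ : K => s a)) A A = 0 := by
    unfold E
    refine Finset.sum_eq_zero fun x hx => Finset.sum_eq_zero fun y hy => ?_
    simp [wt]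
  have e3 : (∑ x ∈ A, ∑ y ∈ Aᶜ, if (fun _ : K => s a) x ≠ n then m x y else 0) = mcut m A := by
    unfold mcut
    refine Finset.sum_congr rfl fun x hx => Finset.sum_congr rfl fun y hy => ?_
    simp [hn a]
  have e4 : n ∉ ({s a} : Finset L) := by
    rw [Finset.mem_singleton]
    exact (hn a).symm
  rw [e1, e3, if_neg e4, Finset.card_singleton] at h3
  push_cast at h3
  omega

lemma nonempty_of_mcut {m : K → K → ℕ} {Z : Finset K} (h : mcut m Z = 2) :
    Z.Nonempty ∧ (Zᶜ).Nonempty := by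
  constructor
  · rw [Finset.nonempty_iff_ne_empty]
    rintro rfl
    simp [mcut] at h
  · rw [Finset.nonempty_iff_ne_empty]
    intro h0
    rw [mcut, h0] at h
    simp at h

theorem cb : T_CB := by
  intro K _ m hm h Z hZ Q
  obtain ⟨hZ1, hZ2⟩ := nonempty_of_mcut hZ
  constructor
  · obtain ⟨L, s, n, hs, hn⟩ := exists_opt K
    have i1 : (Z.image (fun x => s (Q x))).card = (Z.image Q).card := by
      have : Z.image (fun x => s (Q x)) = (Z.image Q).image s := by
        rw [Finset.image_image]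
        rfl
      rw [this, Finset.card_image_of_injective _ hs]
    have i4 : n ∉ Z.image (fun x => s (Q x)) := by
      simp only [Finset.mem_image, not_exists, not_and]
      exact fun x _ => hn _
    have h2 : 2 ≤ pt (fun x => if x ∈ Z then s (Q x) else n) := by
      rw [pt_side Z (fun x => s (Q x)) n hZ2, Finset.card_insert_of_notMem i4]
      have : 0 < (Z.image (fun x => s (Q x))).card := Finset.card_pos.mpr (hZ1.image _)
      omega
    have h3 := MTt_all h _ h2
    rw [ms2_side m hm Z (fun x => s (Q x)) n hZ2] at h3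
    have e1 : E (wt m (fun x => s (Q x))) Z Z = E (wt m Q) Z Z := by
      unfold E
      refine Finset.sum_congr rfl fun x hx => Finset.sum_congr rfl fun y hy => ?_
      simp only [wt, ne_eq, hs.eq_iff]
    have e3 : (∑ x ∈ Z, ∑ y ∈ Zᶜ, if s (Q x) ≠ n then m x y else 0) = mcut m Z := by
      unfold mcut
      refine Finset.sum_congr rfl fun x hx => Finset.sum_congr rfl fun y hy => ?_
      simp [hn (Q x)]
    rw [e1, e3, i1, if_neg i4, hZ] at h3
    rw [al_eq]
    push_cast at h3
    linarith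
  · rintro ⟨q₀, hq⟩
    rw [al_eq]
    by_cases hc : 2 ≤ (Z.image Q).card
    · have h2 : 2 ≤ pt (fun x => if x ∈ Z then Q x else q₀) := by
        rw [pt_side Z Q q₀ hZ2]
        exact hc.trans (Finset.card_le_card (Finset.subset_insert _ _))
      have h3 := MTt_all h _ h2
      rw [ms2_side m hm Z Q q₀ hZ2] at h3
      have e3 : (∑ x ∈ Z, ∑ y ∈ Zᶜ, if Q x ≠ q₀ then m x y else 0) = 0 := by
        refine Finset.sum_eq_zero fun x hx => Finset.sum_eq_zero fun y hy => ?_
        by_cases hxy : 0 < m x y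
        · simp [hq x hx y hy hxy]
        · have : m x y = 0 := by omega
          simp [this]
      have e5 : ((if q₀ ∈ Z.image Q then 1 else 0 : ℕ) : ℤ) ≤ 1 := by
        split_ifs <;> simp
      rw [e3] at h3
      push_cast at h3 e5
      linarith
    · have h1 : (Z.image Q).card ≤ 1 := by omega
      have : ((Z.image Q).card : ℤ) ≤ 1 := by exact_mod_cast h1
      have h0 : (0 : ℤ) ≤ (E (wt m Q) Z Z : ℤ) := Int.natCast_nonneg _
      linarith

/-- a sum of naturals equal to two -/
lemma sum_two {α : Type} (s : Finset α) (h : α → ℕ) (hs : ∑ x ∈ s, h x = 2) :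
    ∃ a ∈ s, ∃ b ∈ s, ∀ x ∈ s, h x = (if x = a then 1 else 0) + (if x = b then 1 else 0) := by
  have h1 : ∃ a ∈ s, 0 < h a := by
    by_contra hc
    push Not at hc
    have : ∑ x ∈ s, h x = 0 := Finset.sum_eq_zero fun x hx => by have := hc x hx; omega
    omega
  obtain ⟨a, ha, hpa⟩ := h1
  have h2 : ∑ x ∈ s, (h x - if x = a then 1 else 0) = 1 := by
    have e1 : ∑ x ∈ s, h x = ∑ x ∈ s, ((h x - if x = a then 1 else 0) + if x = a then 1 else 0) := by
      refine Finset.sum_congr rfl fun x _ => ?_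
      by_cases hx : x = a
      · subst hx
        simp
        omega
      · simp [hx]
    rw [Finset.sum_add_distrib, Finset.sum_ite_eq', if_pos ha] at e1
    omega
  have h3 : ∃ b ∈ s, 0 < (h b - if b = a then 1 else 0) := by
    by_contra hc
    push Not at hc
    have : ∑ x ∈ s, (h x - if x = a then 1 else 0) = 0 :=
      Finset.sum_eq_zero fun x hx => by have := hc x hx; omega
    omega
  obtain ⟨b, hb, hpb⟩ := h3
  refine ⟨a, ha, b, hb, ?_⟩
  have h4 : ∑ x ∈ s, ((h x - if x = a then 1 else 0) - if x = b then 1 else 0) = 0 := by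
    have e1 : ∑ x ∈ s, (h x - if x = a then 1 else 0) =
        ∑ x ∈ s, (((h x - if x = a then 1 else 0) - if x = b then 1 else 0) +
          if x = b then 1 else 0) := by
      refine Finset.sum_congr rfl fun x _ => ?_
      by_cases hx : x = b
      · subst hx
        simp
        omega
      · simp [hx]
    rw [Finset.sum_add_distrib, Finset.sum_ite_eq', if_pos hb] at e1
    omega
  intro x hx
  have h5 := (Finset.sum_eq_zero_iff.mp h4) x hx
  by_cases hxa : x = a <;> by_cases hxb : x = b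
  · subst hxa
    subst hxb
    simp at h5 hpb ⊢
    omega
  · subst hxa
    simp [hxb] at h5 ⊢
    omega
  · subst hxb
    simp [hxa] at h5 hpb ⊢
    omega
  · simp [hxa, hxb] at h5 ⊢
    exact h5

theorem lnk : T_LNK := by
  intro K _ m Z hZ
  have h1 : ∑ x ∈ Z ×ˢ Zᶜ, m x.1 x.2 = 2 := by
    rw [Finset.sum_product]
    exact hZ
  obtain ⟨a, ha, b, hb, hab⟩ := sum_two _ _ h1
  rw [Finset.mem_product] at ha hb
  refine ⟨a.1, b.1, a.2, b.2, ha.1, hb.1, Finset.mem_compl.mp ha.2, Finset.mem_compl.mp hb.2, ?_⟩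
  intro x hx y hy
  have := hab (x, y) (Finset.mem_product.mpr ⟨hx, hy⟩)
  simp only [Prod.ext_iff] at this
  exact this

end

end Pool.Agent.H61.MG
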